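import Pool.Agent.Q49.MR.Stm

/-!
# Project MR: jobs BC and CNT (double counting)
-/

open Module

set_option linter.unusedSectionVars false

namespace Pool.Agent.Q186.MR

open Q49.MR

section

variable {K L : Type} [Field K] [Finite K] [Field L] [Finite L] [Algebra K L]
  {σ : L ≃ₐ[K] L}

lemma inv_mem_Em {y : L} (hy : y ∈ Em σ) : y⁻¹ ∈ Em σ := by
  have h : σ (σ y) = -y := hy
  show σ (σ y⁻¹) = -y⁻¹
  rw [map_inv₀, map_inv₀, h, inv_neg]

lemma trace_one_eq (hσ : Cyc σ) : Algebra.trace K L 1 = 8 := by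
  have : Algebra.trace K L (algebraMap K L 1) = finrank K L • (1 : K) :=
    Algebra.trace_algebraMap 1
  rw [map_one, hσ.rank] at this
  rw [this]
  simp

lemma eight_ne (hσ : Cyc σ) : (8 : K) ≠ 0 := by
  have h2 := hσ.two
  rw [show (8 : K) = 2 * 2 * 2 by norm_num]
  exact mul_ne_zero (mul_ne_zero h2 h2) h2

/-- For a nonzero `y` in `Em` every value is a trace `Tr(e y)`, `e` in `Em`. -/
lemma exists_trace (hσ : Cyc σ) {y : L} (hy : y ∈ Em σ) (hy0 : y ≠ 0) (r : K) :
    ∃ e : Em σ, Algebra.trace K L (e * y) = r := by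
  refine ⟨(r / 8) • ⟨y⁻¹, inv_mem_Em hy⟩, ?_⟩
  have : (((r / 8) • (⟨y⁻¹, inv_mem_Em hy⟩ : Em σ) : Em σ) : L) * y = (r / 8) • (1 : L) := by
    rw [Submodule.coe_smul, smul_mul_assoc]
    simp only [inv_mul_cancel₀ hy0]
  rw [this, map_smul, trace_one_eq hσ, smul_eq_mul]
  have := eight_ne hσ
  field_simp

lemma mul_mem_Em {c : L} (hc : c ∈ W σ) : σ (σ c) * c ∈ Em σ := by
  have h : σ (σ (σ (σ c))) = -c := hc
  show σ (σ (σ (σ c) * c)) = -(σ (σ c) * c)
  rw [map_mul, map_mul, h]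
  ring

lemma sig_ne {c : L} (hc : c ≠ 0) : σ c ≠ 0 := by
  rwa [Ne, map_eq_zero]

lemma GG_eq (κ X c c' : L) (hc : c ∈ W σ) (hc' : c' ∈ W σ) :
    GG σ κ X ⟨c, hc⟩ ⟨c', hc'⟩ = 2 * Algebra.trace K L (TX σ κ X c * c') := rfl

lemma bc_le (hσ : Cyc σ) (κ : L) (t t' : K) (ht : t ≠ 0) :
    Nat.card {z : Em σ × W σ // GG σ κ z.1 z.2 z.2 = t} ≤
      Nat.card {z : Em σ × W σ // GG σ κ z.1 z.2 z.2 = t'} := by
  classical
  have h2 := hσ.two
  -- a choice of translations
  have hex : ∀ c : W σ, ∃ e : Em σ, (c : L) ≠ 0 →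
      2 * Algebra.trace K L ((e : L) * (σ (σ (c : L)) * c)) = t' - t := by
    intro c
    by_cases hc : (c : L) = 0
    · exact ⟨0, fun h => absurd hc h⟩
    · obtain ⟨e, he⟩ := exists_trace hσ (mul_mem_Em c.2)
        (mul_ne_zero (sig_ne (sig_ne hc)) hc) ((t' - t) / 2)
      refine ⟨e, fun _ => ?_⟩
      rw [he]
      field_simp
  choose e he using hex
  have hc0 : ∀ z : Em σ × W σ, GG σ κ z.1 z.2 z.2 = t → (z.2 : L) ≠ 0 := by
    intro z hz h0
    apply ht
    rw [← hz]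
    have : z.2 = 0 := by
      apply Subtype.ext
      exact h0
    rw [this]
    simp
  have : Finite {z : Em σ × W σ // GG σ κ z.1 z.2 z.2 = t'} := inferInstance
  refine Nat.card_le_card_of_injective
    (fun z => ⟨(z.1.1 + e z.1.2, z.1.2), ?_⟩) ?_
  · have h1 := z.2
    have h3 := he z.1.2 (hc0 z.1 z.2)
    show 2 * Algebra.trace K L (TX σ κ ((z.1.1 + e z.1.2 : Em σ) : L) z.1.2 * z.1.2) = t'
    have h4 : 2 * Algebra.trace K L (TX σ κ (z.1.1 : L) z.1.2 * z.1.2) = t := h1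
    have h5 : TX σ κ ((z.1.1 + e z.1.2 : Em σ) : L) z.1.2 * z.1.2 =
        TX σ κ (z.1.1 : L) z.1.2 * z.1.2 + (e z.1.2 : L) * (σ (σ (z.1.2 : L)) * z.1.2) := by
      unfold TX
      rw [Submodule.coe_add]
      ring
    rw [h5, map_add, mul_add, h4, h3]
    ring
  · rintro ⟨⟨X, c⟩, hz⟩ ⟨⟨X', c'⟩, hz'⟩ h
    simp only [Subtype.mk.injEq, Prod.mk.injEq] at h
    obtain ⟨h6, h7⟩ := h
    subst h7
    have : X = X' := add_right_cancel h6
    subst this
    rfl

end

/-- Job BC. -/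
theorem bc (_h1 : S_TR) (_h2 : S_DIM) (_h3 : S_B8) : S_BC := by
  intro K L _ _ _ _ _ σ hσ κ t t' ht ht'
  exact le_antisymm (bc_le hσ κ t t' ht) (bc_le hσ κ t' t ht')

section

variable {K L : Type} [Field K] [Finite K] [Field L] [Finite L] [Algebra K L]
  {σ : L ≃ₐ[K] L}

lemma Psi_mem_Em {κ k : L} (hκ : σ (σ (σ (σ κ))) = κ) (hk : k ∈ W σ) : Psi σ κ k ∈ Em σ := by
  have h : σ (σ (σ (σ k))) = -k := hk
  show σ (σ (Psi σ κ k)) = -Psi σ κ k
  unfold Psi
  simp only [map_add, map_sub, map_mul, map_pow, map_neg, h, hκ]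
  ring

lemma TT_eq (κ e : L) (k : W σ) :
    TT σ κ e k k = 2 * Algebra.trace K L (e * Psi σ κ k) := by
  have h1 : TT σ κ e k k = Algebra.trace K L (e * PP σ κ k k) := rfl
  have h2 : e * PP σ κ (k : L) k = (2 : K) • (e * Psi σ κ k) := by
    rw [Algebra.smul_def, map_ofNat]
    unfold PP Psi
    ring
  rw [h1, h2, map_smul, smul_eq_mul]

/-- the number of the `e` in `Em` with `Tr(e y) = 0`. -/
lemma card_ker (hσ : Cyc σ) (hdim : finrank K (Em σ) = 2) {y : L} (hy : y ∈ Em σ)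
    (hy0 : y ≠ 0) :
    Nat.card {e : Em σ // Algebra.trace K L ((e : L) * y) = 0} = Nat.card K := by
  set φ : Em σ →ₗ[K] K :=
    (Algebra.trace K L).comp ((LinearMap.mulRight K y).comp (Em σ).subtype) with hφ
  have hφe : ∀ e : Em σ, φ e = Algebra.trace K L ((e : L) * y) := fun e => rfl
  have hsurj : Function.Surjective φ := by
    intro r
    obtain ⟨e, he⟩ := exists_trace hσ hy hy0 r
    exact ⟨e, by rw [hφe, he]⟩
  have hrange : finrank K (LinearMap.range φ) = 1 := by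
    rw [LinearMap.range_eq_top.mpr hsurj, finrank_top, finrank_self]
  have hker : finrank K (LinearMap.ker φ) = 1 := by
    have := LinearMap.finrank_range_add_finrank_ker φ
    omega
  have h3 : Nat.card (LinearMap.ker φ) = Nat.card K ^ 1 := by
    rw [← hker]
    exact Module.natCard_eq_pow_finrank (K := K) (V := LinearMap.ker φ)
  rw [pow_one] at h3
  rw [← h3]
  rfl

end

/-- Job CNT. -/
theorem cnt (_h1 : S_TR) (h2 : S_DIM) (_h3 : S_B8) : S_CNT := by
  classical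
  intro K L _ _ _ _ _ σ hσ κ hκ hΨ hge e₀ he₀ he₀0
  obtain ⟨hW, hE⟩ := h2 K L σ hσ
  have h2K := hσ.two
  set q := Nat.card K with hq
  have := Fintype.ofFinite (W σ)
  have := Fintype.ofFinite (Em σ)
  have hcW : Nat.card (W σ) = q ^ 4 := by
    rw [hq, ← hW]
    exact Module.natCard_eq_pow_finrank
  have hcE : Nat.card (Em σ) = q ^ 2 := by
    rw [hq, ← hE]
    exact Module.natCard_eq_pow_finrank
  -- the double count
  have hswap : ∑ e : Em σ, Nat.card {k : W σ // TT σ κ e k k = 0} =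
      ∑ k : W σ, Nat.card {e : Em σ // TT σ κ e k k = 0} := by
    rw [← Nat.card_sigma, ← Nat.card_sigma]
    refine Nat.card_congr ⟨fun z => ⟨z.2.1, z.1, z.2.2⟩, fun z => ⟨z.2.1, z.1, z.2.2⟩, ?_, ?_⟩
    · intro z; rfl
    · intro z; rfl
  have hk : ∀ k : W σ, k ≠ 0 → Nat.card {e : Em σ // TT σ κ e k k = 0} = q := by
    intro k hk0
    have hk0' : (k : L) ≠ 0 := fun h => hk0 (Subtype.ext h)
    have hck := card_ker hσ hE (Psi_mem_Em hκ k.2) (hΨ k k.2 hk0')
    rw [← hq] at hck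
    rw [← hck]
    refine Nat.card_congr (Equiv.subtypeEquivRight fun e => ?_)
    rw [TT_eq, mul_eq_zero]
    constructor
    · rintro (h | h)
      · exact absurd h h2K
      · exact h
    · exact fun h => Or.inr h
  have hk0 : Nat.card {e : Em σ // TT σ κ e (0 : W σ) (0 : W σ) = 0} = q ^ 2 := by
    rw [← hcE]
    refine Nat.card_congr (Equiv.subtypeUnivEquiv fun e => ?_)
    simp
  have he0 : Nat.card {k : W σ // TT σ κ ((0 : Em σ) : L) k k = 0} = q ^ 4 := by
    rw [← hcW]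
    refine Nat.card_congr (Equiv.subtypeUnivEquiv fun k => ?_)
    rw [TT_eq]
    simp
  have hsumk : ∑ k : W σ, Nat.card {e : Em σ // TT σ κ e k k = 0} + q = q ^ 2 + q ^ 4 * q := by
    rw [← Finset.add_sum_erase Finset.univ _ (Finset.mem_univ (0 : W σ)), hk0,
      Finset.sum_congr rfl (fun k hk' => hk k (Finset.ne_of_mem_erase hk')), Finset.sum_const,
      smul_eq_mul, Finset.card_erase_of_mem (Finset.mem_univ _), Finset.card_univ,
      ← Nat.card_eq_fintype_card, hcW]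
    have hq4 : 1 ≤ q ^ 4 := by
      rw [← hcW]
      exact Nat.card_pos
    obtain ⟨m, hm⟩ := Nat.exists_eq_add_of_le hq4
    rw [hm]
    simp only [Nat.add_sub_cancel_left]
    ring
  rw [← hswap, ← Finset.add_sum_erase Finset.univ _ (Finset.mem_univ (0 : Em σ)), he0] at hsumk
  -- lower bounds
  set Z : Em σ → ℕ := fun e => Nat.card {k : W σ // TT σ κ e k k = 0} with hZ
  have hcard : (Finset.univ.erase (0 : Em σ)).card + 1 = q ^ 2 := by
    rw [Finset.card_erase_add_one (Finset.mem_univ _), Finset.card_univ,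
      ← Nat.card_eq_fintype_card, hcE]
  have hlow : ∀ e ∈ Finset.univ.erase (0 : Em σ), q ^ 3 + q ≤ Z e + q ^ 2 := by
    intro e he
    exact hge e e.2 (fun h => Finset.ne_of_mem_erase he (Subtype.ext h))
  have hsum : ∑ e ∈ Finset.univ.erase (0 : Em σ), (q ^ 3 + q) =
      ∑ e ∈ Finset.univ.erase (0 : Em σ), (Z e + q ^ 2) := by
    rw [Finset.sum_const, Finset.sum_add_distrib, Finset.sum_const, smul_eq_mul, smul_eq_mul]
    generalize (Finset.univ.erase (0 : Em σ)).card = m at hcard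
    zify at hcard hsumk ⊢
    have hm : (m : ℤ) = (q : ℤ) ^ 2 - 1 := by linarith
    rw [hm]
    linear_combination -hsumk
  have hall := (Finset.sum_eq_sum_iff_of_le hlow).mp hsum
  exact hall ⟨e₀, he₀⟩ (Finset.mem_erase.mpr ⟨fun h => he₀0 (congrArg Subtype.val h),
    Finset.mem_univ _⟩)

end Pool.Agent.Q186.MR
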