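import Pool.Agent.Q49.MR.Stm

/-!
# Project MR: job E (from a representation of the form to a solution)
-/

open Module

namespace Pool.Agent.Q186.MR

open Q49.MR

/-- Job E. -/
theorem eee (h1 : S_TR) (h2 : S_IND) (h3 : S_DUAL) (h4 : S_B8) (h5 : S_CC) : S_E := by
  rintro K L _ _ _ _ _ σ hσ κ hκ X hX ⟨l1, l2, l3, hl⟩
  have hb8 := h4 K L σ hσ
  have htr := h1 K L σ hσ
  have hind := h2 K L σ hσ
  have h2K : (2 : K) ≠ 0 := hσ.two
  have h2L : (2 : L) ≠ 0 := by
    have := (map_ne_zero (algebraMap K L)).mpr h2K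
    rwa [map_ofNat] at this
  obtain ⟨β, hβ, hl1⟩ := h3 K L σ hσ l1
  obtain ⟨α, hα, hl2⟩ := h3 K L σ hσ l2
  obtain ⟨γ, hγ, hl3⟩ := h3 K L σ hσ l3
  have hsymm := (h5 K L σ hσ κ hκ).2 X hX
  have hβ4 : σ (σ (σ (σ β))) = -β := hβ
  have hα4 : σ (σ (σ (σ α))) = -α := hα
  have hγ4 : σ (σ (σ (σ γ))) = -γ := hγ
  have hX2 : σ (σ X) = -X := hX
  -- the trace on elements fixed by the fourth power
  have htr4 : ∀ y : L, σ (σ (σ (σ y))) = y →
      algebraMap K L (Algebra.trace K L y) = 2 * (y + σ y + σ (σ y) + σ (σ (σ y))) := by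
    intro y hy
    rw [htr y, hy]
    ring
  -- polarization
  have hpol : ∀ c c' : W σ, GG σ κ X c c' = l1 c * l1 c' - 2 * (l2 c * l3 c' + l2 c' * l3 c) := by
    intro c c'
    have e1 := hl (c + c')
    have e2 := hl c
    have e3 := hl c'
    simp only [map_add, LinearMap.add_apply] at e1
    have e4 := hsymm c c'
    apply mul_left_cancel₀ h2K
    linear_combination e1 - e2 - e3 + e4
  have hGG : ∀ c c' : W σ, GG σ κ X c c' = 2 * Algebra.trace K L (TX σ κ X c * c') :=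
    fun c c' => rfl
  have hT4 : ∀ c ∈ W σ, σ (σ (σ (σ (TX σ κ X c)))) = -TX σ κ X c := by
    intro c hc
    have hc4 : σ (σ (σ (σ c))) = -c := hc
    unfold TX
    simp only [map_add, map_sub, map_mul, map_neg, hκ, hc4, hX2]
    ring
  have main : ∀ c ∈ W σ, TX σ κ X c =
      β * (β * c + σ (β * c) + σ (σ (β * c)) + σ (σ (σ (β * c)))) -
      2 * γ * (α * c + σ (α * c) + σ (σ (α * c)) + σ (σ (σ (α * c)))) -
      2 * α * (γ * c + σ (γ * c) + σ (σ (γ * c)) + σ (σ (σ (γ * c)))) := by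
    intro c hc
    have hc4 : σ (σ (σ (σ c))) = -c := hc
    have key := hind
      (TX σ κ X c - (β * (β * c + σ (β * c) + σ (σ (β * c)) + σ (σ (σ (β * c)))) -
      2 * γ * (α * c + σ (α * c) + σ (σ (α * c)) + σ (σ (σ (α * c)))) -
      2 * α * (γ * c + σ (γ * c) + σ (σ (γ * c)) + σ (σ (σ (γ * c))))))
      (σ (TX σ κ X c) - (σ β * (β * c + σ (β * c) + σ (σ (β * c)) + σ (σ (σ (β * c)))) -
      2 * σ γ * (α * c + σ (α * c) + σ (σ (α * c)) + σ (σ (σ (α * c)))) -
      2 * σ α * (γ * c + σ (γ * c) + σ (σ (γ * c)) + σ (σ (σ (γ * c))))))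
      (σ (σ (TX σ κ X c)) - (σ (σ β) * (β * c + σ (β * c) + σ (σ (β * c)) + σ (σ (σ (β * c)))) -
      2 * σ (σ γ) * (α * c + σ (α * c) + σ (σ (α * c)) + σ (σ (σ (α * c)))) -
      2 * σ (σ α) * (γ * c + σ (γ * c) + σ (σ (γ * c)) + σ (σ (σ (γ * c))))))
      (σ (σ (σ (TX σ κ X c))) -
      (σ (σ (σ β)) * (β * c + σ (β * c) + σ (σ (β * c)) + σ (σ (σ (β * c)))) -
      2 * σ (σ (σ γ)) * (α * c + σ (α * c) + σ (σ (α * c)) + σ (σ (σ (α * c)))) -
      2 * σ (σ (σ α)) * (γ * c + σ (γ * c) + σ (σ (γ * c)) + σ (σ (σ (γ * c))))))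
      (by
        intro y hy
        have hy4 : σ (σ (σ (σ y))) = -y := hy
        have e := hpol ⟨c, hc⟩ ⟨y, hy⟩
        rw [hGG, hl1, hl1, hl2, hl2, hl3, hl3] at e
        have e' := congrArg (algebraMap K L) e
        simp only [map_mul, map_sub, map_add, map_ofNat] at e'
        rw [htr4 (TX σ κ X c * y) (by simp only [map_mul]; rw [hT4 c hc, hy4]; ring),
          htr4 (β * c) (by simp only [map_mul]; rw [hβ4, hc4]; ring),
          htr4 (β * y) (by simp only [map_mul]; rw [hβ4, hy4]; ring),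
          htr4 (α * c) (by simp only [map_mul]; rw [hα4, hc4]; ring),
          htr4 (α * y) (by simp only [map_mul]; rw [hα4, hy4]; ring),
          htr4 (γ * c) (by simp only [map_mul]; rw [hγ4, hc4]; ring),
          htr4 (γ * y) (by simp only [map_mul]; rw [hγ4, hy4]; ring)] at e'
        have h4L : (4 : L) ≠ 0 := by
          rw [show (4 : L) = 2 * 2 by norm_num]
          exact mul_ne_zero h2L h2L
        apply mul_left_cancel₀ h4L
        rw [mul_zero]
        simp only [map_mul] at e' ⊢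
        linear_combination e')
    exact sub_eq_zero.mp key.1
  have fin := hind (1 - (β ^ 2 - 4 * α * γ)) (-κ - (β * σ β - 2 * γ * σ α - 2 * α * σ γ))
    (X - (β * σ (σ β) - 2 * γ * σ (σ α) - 2 * α * σ (σ γ)))
    (σ (σ (σ κ)) - (β * σ (σ (σ β)) - 2 * γ * σ (σ (σ α)) - 2 * α * σ (σ (σ γ)))) (by
      intro c hc
      have e := main c hc
      unfold TX at e
      simp only [map_mul] at e
      linear_combination e)
  refine ⟨α, hα, β, hβ, γ, hγ, ?_, ?_⟩
  · linear_combination -fin.1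
  · linear_combination -fin.2.1

end Pool.Agent.Q186.MR
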