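import Pool.Agent.Q49.MR.Stm

/-!
# Project MR: job G (code words and solutions)
-/

open Module

namespace Pool.Agent.Q186.MR

open Q49.MR

section

variable {K L : Type} [Field K] [Field L] [Algebra K L]

lemma fixed_of_algebraMap (σ : L ≃ₐ[K] L) (c : K) : σ (algebraMap K L c) = algebraMap K L c :=
  AlgEquiv.commutes σ c

lemma li_mul (σ : L ≃ₐ[K] L) {x l : L} (hx : x ≠ 0) (hl : σ l ≠ l) :
    LinearIndependent K ![x, l * x] := by
  rw [LinearIndependent.pair_iff]
  intro s t hst
  rw [Algebra.smul_def, Algebra.smul_def] at hst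
  have h1 : algebraMap K L s + algebraMap K L t * l = 0 := by
    have : (algebraMap K L s + algebraMap K L t * l) * x = 0 := by linear_combination hst
    rcases mul_eq_zero.mp this with h | h
    · exact h
    · exact absurd h hx
  have ht : t = 0 := by
    by_contra ht
    have ht' : algebraMap K L t ≠ 0 := by
      rwa [Ne, map_eq_zero]
    apply hl
    have h2 : l = algebraMap K L (-s / t) := by
      rw [map_div₀, map_neg, eq_div_iff ht']
      linear_combination h1
    rw [h2]
    exact AlgEquiv.commutes σ _
  subst ht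
  refine ⟨?_, rfl⟩
  rw [map_zero, zero_mul, add_zero, map_eq_zero] at h1
  exact h1

end

/-- Job G. -/
theorem ggg (h1 : S_B8) (h2 : S_HIL) (h3 : S_FX) (h4 : S_IND) : S_G := by
  intro K L _ _ _ _ _ σ hσ δ hδ
  have hb8 := h1 K L σ hσ
  have hinj : Function.Injective σ := σ.injective
  have hne : ∀ x : L, x ≠ 0 → σ x ≠ 0 := fun x hx => by
    rwa [Ne, map_eq_zero]
  have hδ4 : σ (σ (σ (σ δ))) ≠ 0 := hne _ (hne _ (hne _ (hne _ hδ)))
  refine ⟨?_, ?_⟩
  · rintro (⟨l, hl, hrel⟩ | hN)
    · unfold Q49.MR.Rel at hrel
      have hA : σ l - l ≠ 0 := sub_ne_zero.mpr hl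
      have hB : σ (σ (σ (σ (σ l)))) - σ (σ (σ (σ l))) ≠ 0 := by
        have := hne _ (hne _ (hne _ (hne _ hA)))
        simpa only [map_sub] using this
      have hprod : δ * σ (σ (σ (σ δ))) *
          ((σ (σ (σ (σ (σ l)))) - l) * (σ l - σ (σ (σ (σ l))))) ≠ 0 := by
        rw [← hrel]
        exact mul_ne_zero hA hB
      have hC : σ (σ (σ (σ (σ l)))) - l ≠ 0 := by
        intro hc
        apply hprod
        rw [hc]
        ring
      have hD : σ l - σ (σ (σ (σ l))) ≠ 0 := by
        intro hc
        apply hprod
        rw [hc]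
        ring
      obtain ⟨z, hz, hz4⟩ := h2 K L σ hσ
        (-(σ l - l) / (δ * (σ (σ (σ (σ (σ l)))) - l))) (by
          simp only [map_div₀, map_neg, map_sub, map_mul]
          rw [hb8 l]
          field_simp
          linear_combination hrel)
      set x := σ.symm z with hxdef
      have hx1 : σ x = z := σ.apply_symm_apply z
      have hx0 : x ≠ 0 := by
        intro hc
        rw [hc, map_zero] at hx1
        exact hz hx1.symm
      have hzz : δ * (σ (σ (σ (σ (σ l)))) - l) * σ (σ (σ (σ z))) = -(σ l - l) * z := by
        rw [hz4]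
        field_simp
      refine ⟨-(z + δ * σ (σ (σ (σ z)))) / x, 1, Or.inr one_ne_zero, x, l * x,
        li_mul σ hx0 hl, ?_, ?_⟩
      · rw [hx1]
        field_simp
        ring
      · simp only [map_mul]
        rw [hx1]
        field_simp
        linear_combination hzz
    · obtain ⟨z, hz, hz4⟩ := h2 K L σ hσ (-δ⁻¹) (by
          simp only [map_neg, map_inv₀]
          field_simp
          exact hN.symm)
      set x := σ.symm z with hxdef
      have hx1 : σ x = z := σ.apply_symm_apply z
      have hx0 : x ≠ 0 := by
        intro hc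
        rw [hc, map_zero] at hx1
        exact hz hx1.symm
      have hzz : z + δ * σ (σ (σ (σ z))) = 0 := by
        rw [hz4]
        field_simp
        ring
      -- an element u with u_4 = u, u_1 ≠ u
      obtain ⟨u, hu4, hu1⟩ : ∃ u : L, σ (σ (σ (σ u))) = u ∧ σ u ≠ u := by
        by_contra hcon
        push Not at hcon
        have key : ∀ t ∈ W σ, t = 0 := by
          intro t ht
          have := h4 K L σ hσ (-t) (σ t) 0 0 (by
            intro y hy
            have hty : σ (σ (σ (σ (t * y)))) = t * y := by
              simp only [map_mul]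
              rw [show σ (σ (σ (σ t))) = -t from ht, show σ (σ (σ (σ y))) = -y from hy]
              ring
            have := hcon (t * y) hty
            rw [map_mul] at this
            linear_combination this)
          linear_combination -this.1
        have := h4 K L σ hσ 1 0 0 0 (by
          intro y hy
          rw [key y hy]
          simp)
        exact one_ne_zero this.1
      refine ⟨0, 1, Or.inr one_ne_zero, x, u * x, li_mul σ hx0 hu1, ?_, ?_⟩
      · rw [hx1]
        linear_combination hzz
      · simp only [map_mul]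
        rw [hx1, hu4]
        linear_combination (σ u) * hzz
  · intro a b hab x y hli hx hy
    have hx0 : x ≠ 0 := by
      have := hli.ne_zero 0
      simpa using this
    have hb : b ≠ 0 := by
      intro hb
      subst hb
      have ha : a ≠ 0 := by
        rcases hab with h | h
        · exact h
        · exact absurd rfl h
      have : a * x = 0 := by linear_combination hx
      rcases mul_eq_zero.mp this with h | h
      · exact ha h
      · exact hx0 h
    obtain ⟨l, rfl⟩ : ∃ l : L, y = l * x := ⟨y / x, by field_simp⟩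
    have hl : σ l ≠ l := by
      intro hc
      obtain ⟨c, rfl⟩ := h3 K L σ hσ l hc
      rw [LinearIndependent.pair_iff] at hli
      have := hli (-c) 1 (by
        rw [Algebra.smul_def, one_smul, map_neg]
        ring)
      exact one_ne_zero this.2
    refine ⟨l, hl, ?_⟩
    simp only [map_mul] at hy
    have hA : (σ l - l) * σ x = -δ * (σ (σ (σ (σ (σ l)))) - l) * σ (σ (σ (σ (σ x)))) := by
      have : b * ((σ l - l) * σ x + δ * (σ (σ (σ (σ (σ l)))) - l) * σ (σ (σ (σ (σ x))))) = 0 := by
        linear_combination hy - l * hx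
      rcases mul_eq_zero.mp this with h | h
      · exact absurd h hb
      · linear_combination h
    have hB := congrArg (fun w => σ (σ (σ (σ w)))) hA
    simp only [map_mul, map_sub, map_neg] at hB
    rw [hb8 l, hb8 x] at hB
    have hx1 : σ x ≠ 0 := hne _ hx0
    have hx5 : σ (σ (σ (σ (σ x)))) ≠ 0 := hne _ (hne _ (hne _ (hne _ hx1)))
    unfold Q49.MR.Rel
    have hmul : ((σ l - l) * (σ (σ (σ (σ (σ l)))) - σ (σ (σ (σ l)))) -
        δ * σ (σ (σ (σ δ))) * ((σ (σ (σ (σ (σ l)))) - l) * (σ l - σ (σ (σ (σ l)))))) *
        (σ x * σ (σ (σ (σ (σ x))))) = 0 := by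
      linear_combination (σ (σ (σ (σ (σ l)))) - σ (σ (σ (σ l)))) * σ (σ (σ (σ (σ x)))) * hA -
        δ * (σ (σ (σ (σ (σ l)))) - l) * σ (σ (σ (σ (σ x)))) * hB
    rcases mul_eq_zero.mp hmul with h | h
    · exact sub_eq_zero.mp h
    · exact absurd h (mul_ne_zero hx1 hx5)

end Pool.Agent.Q186.MR
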